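import Pool.Agent.helper65.GCA.Defs
import Pool.Agent.helper26.GCA_A10a
import Pool.Agent.helper66.GCA_A10bc

set_option autoImplicit false

/-!
# mod:A10d: sets defined by polynomial equations and an inequation have finitely many path
components
-/

namespace Pool.Agent.helper65.GCA

open Set Topology Polynomial

namespace A10d

lemma union {E : Type*} [TopologicalSpace E] {S T : Set E} (hS : FinPC S) (hT : FinPC T) :
    FinPC (S ∪ T) := by
  obtain ⟨A, hA, hA1, rfl⟩ := hS
  obtain ⟨B, hB, hB1, rfl⟩ := hT
  refine ⟨A ∪ B, hA.union hB, ?_, sUnion_union A B⟩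
  rintro C (hC | hC)
  · exact hA1 C hC
  · exact hB1 C hC

lemma empty {E : Type*} [TopologicalSpace E] : FinPC (∅ : Set E) :=
  ⟨∅, finite_empty, by simp, by simp⟩

lemma image {E F : Type*} [TopologicalSpace E] [TopologicalSpace F] {S : Set E} (hS : FinPC S)
    (f : E → F) (hf : Continuous f) : FinPC (f '' S) := by
  obtain ⟨A, hA, hA1, rfl⟩ := hS
  refine ⟨(fun C => f '' C) '' A, hA.image _, ?_, ?_⟩
  · rintro _ ⟨C, hC, rfl⟩
    exact (hA1 C hC).image hf
  · rw [sUnion_image, sUnion_eq_biUnion, image_iUnion₂]

/-- A union over a finite cover by path connected sets. -/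
lemma of_cover {E F : Type*} [TopologicalSpace E] [TopologicalSpace F] {S : Set E} (hS : FinPC S)
    (R : E → F → Prop) (h : ∀ C, IsPathConnected C → C ⊆ S → FinPC {z : E × F | z.1 ∈ C ∧ R z.1 z.2}) :
    FinPC {z : E × F | z.1 ∈ S ∧ R z.1 z.2} := by
  obtain ⟨A, hA, hA1, rfl⟩ := hS
  have key : ∀ B : Set (Set E), B.Finite → B ⊆ A →
      FinPC {z : E × F | z.1 ∈ ⋃₀ B ∧ R z.1 z.2} := by
    intro B hB
    induction B, hB using Set.Finite.induction_on with
    | empty => intro _; simpa using empty
    | insert hC hB ih =>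
      rename_i C B
      intro hsub
      have h1 := ih ((subset_insert _ _).trans hsub)
      have h2 := h C (hA1 C (hsub (mem_insert _ _))) (subset_sUnion_of_mem (hsub (mem_insert _ _)))
      convert union h2 h1 using 1
      ext z
      simp only [sUnion_insert, mem_union, mem_ofPred_eq]
      tauto
  exact key A hA subset_rfl

/-- The zero locus of an ideal minus the zero locus of one polynomial. -/
def Loc {σ : Type} (J : Ideal (MvPolynomial σ ℂ)) (h : MvPolynomial σ ℂ) : Set (σ → ℂ) :=
  {x | (∀ f ∈ J, MvPolynomial.eval x f = 0) ∧ MvPolynomial.eval x h ≠ 0}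

/-- The fibre condition. -/
def Fib {σ : Type} (S : Set (MvPolynomial σ ℂ)[X]) (G : (MvPolynomial σ ℂ)[X]) (x : σ → ℂ) (y : ℂ) :
    Prop :=
  (∀ F ∈ S, (F.map (MvPolynomial.eval x)).IsRoot y) ∧ ¬ (G.map (MvPolynomial.eval x)).IsRoot y

lemma continuous_coeff {σ : Type} [Finite σ] (Q : (MvPolynomial σ ℂ)[X]) (k : ℕ) :
    Continuous fun x : σ → ℂ => (Q.map (MvPolynomial.eval x)).coeff k := by
  simp only [coeff_map]
  exact MvPolynomial.continuous_eval _

theorem step {σ : Type} [Finite σ]
    (IH : ∀ (J : Ideal (MvPolynomial σ ℂ)) (g : MvPolynomial σ ℂ), FinPC (Loc J g))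
    (S : Set (MvPolynomial σ ℂ)[X]) (G : (MvPolynomial σ ℂ)[X]) (J : Ideal (MvPolynomial σ ℂ)) :
    FinPC {z : (σ → ℂ) × ℂ | (∀ f ∈ J, MvPolynomial.eval z.1 f = 0) ∧ Fib S G z.1 z.2} := by
  induction J using IsNoetherian.induction with
  | hgt J ih =>
  by_cases htop : J = ⊤
  · subst htop
    convert empty using 1
    ext z
    simp only [mem_ofPred_eq, mem_empty_iff_false, iff_false, not_and]
    intro h
    have := h 1 (by simp)
    simp at this
  -- splitting by an element outside of `J`
  have split : ∀ h : MvPolynomial σ ℂ, h ∉ J →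
      FinPC {z : (σ → ℂ) × ℂ | z.1 ∈ Loc J h ∧ Fib S G z.1 z.2} →
      FinPC {z : (σ → ℂ) × ℂ | (∀ f ∈ J, MvPolynomial.eval z.1 f = 0) ∧ Fib S G z.1 z.2} := by
    intro h hh hF
    have hlt : J < J ⊔ Ideal.span {h} := by
      refine lt_of_le_of_ne le_sup_left fun he => hh ?_
      rw [he]
      exact Ideal.mem_sup_right (Ideal.subset_span rfl)
    convert union (ih _ hlt) hF using 1
    ext z
    simp only [mem_ofPred_eq, mem_union, Loc]
    constructor
    · rintro ⟨h1, h2⟩
      by_cases hz : MvPolynomial.eval z.1 h = 0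
      · left
        refine ⟨fun f hf => ?_, h2⟩
        obtain ⟨a, ha, b, hb, rfl⟩ := Submodule.mem_sup.1 hf
        obtain ⟨c, rfl⟩ := Ideal.mem_span_singleton.1 hb
        simp [h1 a ha, hz]
      · exact Or.inr ⟨⟨h1, hz⟩, h2⟩
    · rintro (⟨h1, h2⟩ | ⟨⟨h1, -⟩, h2⟩)
      · exact ⟨fun f hf => h1 f (Ideal.mem_sup_left hf), h2⟩
      · exact ⟨h1, h2⟩
  by_cases hprime : Ideal.IsPrime J
  · by_cases hS : ∃ F ∈ S, ∃ k, F.coeff k ∉ J
    · obtain ⟨h, hhJ, Q, e, hQ⟩ := exists_separable_fiber J S G hS
      refine split h hhJ (of_cover (IH J h) _ fun C hC hCs => ?_)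
      have := finPC_roots hC (fun x => Q.map (MvPolynomial.eval x)) e
        (fun k => (continuous_coeff Q k).continuousOn)
        (fun x hx => (hQ x (hCs hx).1 (hCs hx).2).2.1)
        (fun x hx => (hQ x (hCs hx).1 (hCs hx).2).1)
      convert this using 1
      ext z
      simp only [mem_ofPred_eq]
      refine and_congr_right fun hz => ?_
      exact ((hQ z.1 (hCs hz).1 (hCs hz).2).2.2 z.2).symm
    · push Not at hS
      have hS0 : ∀ x : σ → ℂ, (∀ f ∈ J, MvPolynomial.eval x f = 0) → ∀ F ∈ S,
          F.map (MvPolynomial.eval x) = 0 := by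
        intro x hx F hF
        ext k
        rw [coeff_map, coeff_zero]
        exact hx _ (hS F hF k)
      by_cases hG : ∃ k, G.coeff k ∉ J
      · classical
        set s : Finset ℕ := G.support.filter (fun k => G.coeff k ∉ J) with hs
        have hne : s.Nonempty := by
          obtain ⟨k, hk⟩ := hG
          refine ⟨k, ?_⟩
          simp only [hs, Finset.mem_filter, mem_support_iff]
          refine ⟨fun h0 => hk (by rw [h0]; exact J.zero_mem), hk⟩
        set e := s.max' hne with he
        have hes : e ∈ s := s.max'_mem hne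
        have heJ : G.coeff e ∉ J := (Finset.mem_filter.1 hes).2
        have habove : ∀ k, e < k → G.coeff k ∈ J := by
          intro k hk
          by_contra hkJ
          have : k ∈ s := by
            simp only [hs, Finset.mem_filter, mem_support_iff]
            exact ⟨fun h0 => hkJ (by rw [h0]; exact J.zero_mem), hkJ⟩
          exact absurd (s.le_max' k this) (not_le.2 hk)
        refine split (G.coeff e) heJ (of_cover (IH J (G.coeff e)) _ fun C hC hCs => ?_)
        have hdeg : ∀ x ∈ C, (G.map (MvPolynomial.eval x)).natDegree = e := by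
          intro x hx
          apply le_antisymm
          · rw [natDegree_le_iff_coeff_eq_zero]
            intro k hk
            rw [coeff_map]
            exact (hCs hx).1 _ (habove k hk)
          · apply le_natDegree_of_ne_zero
            rw [coeff_map]
            exact (hCs hx).2
        have hne0 : ∀ x ∈ C, G.map (MvPolynomial.eval x) ≠ 0 := by
          intro x hx h0
          have : (G.map (MvPolynomial.eval x)).coeff e = 0 := by rw [h0, coeff_zero]
          rw [coeff_map] at this
          exact (hCs hx).2 this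
        have := finPC_nonroots hC (fun x => G.map (MvPolynomial.eval x)) e
          (fun k => (continuous_coeff G k).continuousOn) hdeg hne0
        convert this using 1
        ext z
        simp only [mem_ofPred_eq]
        refine and_congr_right fun hz => ?_
        unfold Fib
        constructor
        · exact fun h => h.2
        · refine fun h => ⟨fun F hF => ?_, h⟩
          rw [hS0 z.1 (hCs hz).1 F hF]
          simp
      · push Not at hG
        convert empty using 1
        ext z
        simp only [mem_ofPred_eq, mem_empty_iff_false, iff_false, not_and]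
        intro h1 h2
        apply h2.2
        have : G.map (MvPolynomial.eval z.1) = 0 := by
          ext k
          rw [coeff_map, coeff_zero]
          exact h1 _ (hG k)
        rw [this]
        simp
  · -- `J` is not prime
    rw [Ideal.isPrime_iff] at hprime
    push Not at hprime
    obtain ⟨a, b, hab, ha, hb⟩ := hprime htop
    have hlt : ∀ c, c ∉ J → J < J ⊔ Ideal.span {c} := by
      intro c hc
      refine lt_of_le_of_ne le_sup_left fun he => hc ?_
      rw [he]
      exact Ideal.mem_sup_right (Ideal.subset_span rfl)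
    have hspan : ∀ c (x : σ → ℂ), (∀ f ∈ J, MvPolynomial.eval x f = 0) →
        MvPolynomial.eval x c = 0 → ∀ f ∈ J ⊔ Ideal.span {c}, MvPolynomial.eval x f = 0 := by
      intro c x hx hc f hf
      obtain ⟨a, ha, b, hb, rfl⟩ := Submodule.mem_sup.1 hf
      obtain ⟨c, rfl⟩ := Ideal.mem_span_singleton.1 hb
      simp [hx a ha, hc]
    convert union (ih _ (hlt a ha)) (ih _ (hlt b hb)) using 1
    ext z
    simp only [mem_ofPred_eq, mem_union]
    constructor
    · rintro ⟨h1, h2⟩
      have := h1 _ hab
      rw [map_mul, mul_eq_zero] at this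
      rcases this with h0 | h0
      · exact Or.inl ⟨hspan a z.1 h1 h0, h2⟩
      · exact Or.inr ⟨hspan b z.1 h1 h0, h2⟩
    · rintro (⟨h1, h2⟩ | ⟨h1, h2⟩)
      · exact ⟨fun f hf => h1 f (Ideal.mem_sup_left hf), h2⟩
      · exact ⟨fun f hf => h1 f (Ideal.mem_sup_left hf), h2⟩

lemma eval_option {σ : Type} (x : Option σ → ℂ) (f : MvPolynomial (Option σ) ℂ) :
    MvPolynomial.eval x f =
      ((MvPolynomial.optionEquivLeft ℂ σ f).map (MvPolynomial.eval fun i => x (some i))).eval
        (x none) := by
  have : (MvPolynomial.eval x : MvPolynomial (Option σ) ℂ →+* ℂ) =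
      ((Polynomial.evalRingHom (x none)).comp
        (Polynomial.mapRingHom (MvPolynomial.eval fun i => x (some i)))).comp
        (MvPolynomial.optionEquivLeft ℂ σ : MvPolynomial (Option σ) ℂ →+* _) := by
    apply MvPolynomial.ringHom_ext
    · intro r
      simp
    · intro i
      cases i <;> simp
  exact congrArg (fun φ => φ f) this

end A10d

open A10d in
/-- mod:A10d. -/
theorem finPC_constructible {τ : Type} [Finite τ] (S : Set (MvPolynomial τ ℂ))
    (g : MvPolynomial τ ℂ) :
    FinPC {x : τ → ℂ | (∀ f ∈ S, MvPolynomial.eval x f = 0) ∧ MvPolynomial.eval x g ≠ 0} := by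
  revert S g
  induction τ using Finite.induction_empty_option with
  | of_equiv e ih =>
    rename_i α β
    intro S g
    have h := ih (MvPolynomial.rename e.symm '' S) (MvPolynomial.rename e.symm g)
    have h2 := image h (fun x : α → ℂ => fun b => x (e.symm b))
      (by fun_prop)
    convert h2 using 1
    ext x
    simp only [mem_ofPred_eq, mem_image]
    constructor
    · rintro ⟨h1, h3⟩
      refine ⟨fun a => x (e a), ⟨?_, ?_⟩, ?_⟩
      · rintro _ ⟨f, hf, rfl⟩
        rw [MvPolynomial.eval_rename]
        convert h1 f hf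
        ext b
        simp
      · rw [MvPolynomial.eval_rename]
        convert h3
        ext b
        simp
      · ext b
        simp
    · rintro ⟨y, ⟨h1, h3⟩, rfl⟩
      refine ⟨fun f hf => ?_, ?_⟩
      · have := h1 _ ⟨f, hf, rfl⟩
        rw [MvPolynomial.eval_rename] at this
        exact this
      · rw [MvPolynomial.eval_rename] at h3
        exact h3
  | h_empty =>
    intro S g
    by_cases hne : {x : PEmpty → ℂ | (∀ f ∈ S, MvPolynomial.eval x f = 0) ∧
      MvPolynomial.eval x g ≠ 0}.Nonempty
    · refine ⟨{{x : PEmpty → ℂ | (∀ f ∈ S, MvPolynomial.eval x f = 0) ∧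
        MvPolynomial.eval x g ≠ 0}}, finite_singleton _, ?_, sUnion_singleton _⟩
      rintro C rfl
      obtain ⟨x, hx⟩ := hne
      refine ⟨x, hx, fun {y} hy => ?_⟩
      rw [Subsingleton.elim y x]
      exact JoinedIn.refl hx
    · rw [not_nonempty_iff_eq_empty] at hne
      rw [hne]
      exact empty
  | h_option ih =>
    rename_i α _
    intro S g
    have h := step (σ := α) (fun J g => ih (S := {f | f ∈ J}) g) ((MvPolynomial.optionEquivLeft ℂ α) '' S)
      (MvPolynomial.optionEquivLeft ℂ α g) ⊥
    have h2 := image h (fun z : (α → ℂ) × ℂ => fun o : Option α => o.elim z.2 z.1) (by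
      refine continuous_pi fun o => ?_
      cases o
      · exact continuous_snd
      · exact (continuous_apply _).comp continuous_fst)
    convert h2 using 1
    ext x
    simp only [mem_ofPred_eq, mem_image, Fib]
    constructor
    · rintro ⟨h1, h3⟩
      refine ⟨(fun a => x (some a), x none), ⟨?_, ?_, ?_⟩, ?_⟩
      · intro f hf
        rw [Ideal.mem_bot.1 hf, map_zero]
      · rintro _ ⟨f, hf, rfl⟩
        rw [IsRoot.def, ← eval_option]
        exact h1 f hf
      · rw [IsRoot.def, ← eval_option]
        exact h3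
      · ext o
        cases o <;> rfl
    · rintro ⟨⟨y, w⟩, ⟨-, h1, h3⟩, rfl⟩
      refine ⟨fun f hf => ?_, ?_⟩
      · rw [eval_option]
        exact h1 _ ⟨f, hf, rfl⟩
      · rw [Ne, eval_option]
        exact h3

end Pool.Agent.helper65.GCA
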