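import Mathlib

set_option autoImplicit false

/-!
# Definitions for MP_5e4b6b_an: curves, pullback relation, Thurston equivalence, rational maps

The sphere is the one-point compactification `OnePoint ℂ` of the complex plane.
-/

namespace Pool.Agent.helper65.GCA

open Set Topology unitInterval Polynomial

/-- The sphere `S²`. -/
abbrev S2 : Type := OnePoint ℂ

/-! ### Isotopy -/

/-- `h` and `k` are isotopic relative to `P`: there is a continuous path of homeomorphisms of the
sphere from `h` to `k`, all of which agree with `h` on `P`. -/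
def IsotopicRel (P : Set S2) (h k : S2 ≃ₜ S2) : Prop :=
  ∃ H : I → (S2 ≃ₜ S2), Continuous (fun p : I × S2 => H p.1 p.2) ∧ H 0 = h ∧ H 1 = k ∧
    ∀ t, ∀ x ∈ P, H t x = h x

/-! ### Curves -/

/-- `J` is a simple closed curve: the image of an injective continuous map from the circle. -/
def IsSimpleClosedCurve (J : Set S2) : Prop :=
  ∃ γ : Circle → S2, Continuous γ ∧ Function.Injective γ ∧ range γ = J

/-- A simple closed curve `J` in `S² ∖ P` is essential if each complementary disk, that is each
connected component of the complement of `J`, contains at least two points of `P`. -/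
def IsEssential (P J : Set S2) : Prop :=
  ∀ x ∉ J, 2 ≤ (P ∩ connectedComponentIn Jᶜ x).encard

/-- Essential simple closed curves in `S² ∖ P`. -/
structure ECurve (P : Set S2) where
  /-- the curve, as a subset of the sphere -/
  carrier : Set S2
  simple : IsSimpleClosedCurve carrier
  disj : Disjoint carrier P
  ess : IsEssential P carrier

/-- Two subsets of `S² ∖ P` are isotopic in `S² ∖ P`: one is carried to the other by a
homeomorphism isotopic to the identity relative to `P`. -/
def IsotopicIn (P : Set S2) (J K : Set S2) : Prop :=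
  ∃ h : S2 ≃ₜ S2, IsotopicRel P (Homeomorph.refl S2) h ∧ h '' J = K

lemma IsotopicRel.refl (P : Set S2) (h : S2 ≃ₜ S2) : IsotopicRel P h h :=
  ⟨fun _ => h, h.continuous.comp continuous_snd, rfl, rfl, fun _ _ _ => rfl⟩

lemma IsotopicIn.refl (P J : Set S2) : IsotopicIn P J J :=
  ⟨Homeomorph.refl S2, IsotopicRel.refl _ _, by simp⟩

lemma IsotopicIn.symm {P J K : Set S2} (h : IsotopicIn P J K) : IsotopicIn P K J := by
  obtain ⟨g, ⟨H, hH, h0, h1, hP⟩, rfl⟩ := h
  refine ⟨g.symm, ⟨fun t => g.symm.trans (H (σ t)), ?_, ?_, ?_, ?_⟩, ?_⟩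
  · exact hH.comp ((continuous_symm.comp continuous_fst).prodMk
      (g.symm.continuous.comp continuous_snd))
  · ext x
    simp [h1]
  · ext x
    simp [h0]
  · intro t x hx
    have hgx : g x = x := by rw [← h1]; exact hP 1 x hx
    have : g.symm x = x := by rw [Homeomorph.symm_apply_eq]; exact hgx.symm
    simp only [Homeomorph.trans_apply, this]
    exact hP _ x hx
  · rw [Homeomorph.image_symm]
    exact preimage_image_eq _ g.injective

lemma IsotopicIn.trans {P J K L : Set S2} (h : IsotopicIn P J K) (h' : IsotopicIn P K L) :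
    IsotopicIn P J L := by
  obtain ⟨g, ⟨H, hH, h0, h1, hP⟩, rfl⟩ := h
  obtain ⟨g', ⟨H', hH', h0', h1', hP'⟩, rfl⟩ := h'
  refine ⟨g.trans g', ⟨fun t => (H t).trans (H' t), ?_, ?_, ?_, ?_⟩, ?_⟩
  · exact hH'.comp (continuous_fst.prodMk hH)
  · ext x
    simp [h0, h0']
  · ext x
    simp [h1, h1']
  · intro t x hx
    simp only [Homeomorph.trans_apply]
    rw [hP t x hx]
    exact hP' t x hx
  · rw [image_image]
    rfl

/-- Isotopy of essential curves in `S² ∖ P` is an equivalence relation. -/
instance ECurve.setoid (P : Set S2) : Setoid (ECurve P) where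
  r J K := IsotopicIn P J.carrier K.carrier
  iseqv := ⟨fun _ => IsotopicIn.refl _ _, IsotopicIn.symm, IsotopicIn.trans⟩

/-- The set `𝒞` of isotopy classes of essential curves in `S² ∖ P`, together with one extra element
`none` (written `o` in the problem) standing for all trivial curves. -/
abbrev CurveClass (P : Set S2) : Type := Option (Quotient (ECurve.setoid P))

/-- `K` is a connected component of `F ⁻¹ (J)`. -/
def IsPullback (F : S2 → S2) (J K : Set S2) : Prop :=
  ∃ x ∈ F ⁻¹' J, K = connectedComponentIn (F ⁻¹' J) x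

/-- The pullback relation `γ → δ` on `𝒞`: some component of `F ⁻¹ (γ)` lies in the class `δ`
(trivial components give `o`), and `o → o`. -/
def Pull (F : S2 → S2) (P : Set S2) : CurveClass P → CurveClass P → Prop
  | some a, some b => ∃ J K : ECurve P, ⟦J⟧ = a ∧ ⟦K⟧ = b ∧ IsPullback F J.carrier K.carrier
  | some a, none => ∃ (J : ECurve P) (K : Set S2), ⟦J⟧ = a ∧ IsPullback F J.carrier K ∧
      IsSimpleClosedCurve K ∧ Disjoint K P ∧ ¬ IsEssential P K
  | none, some _ => False
  | none, none => True

/-- The `n`-step relation `γ →ⁿ δ`. -/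
def PullN (F : S2 → S2) (P : Set S2) : ℕ → CurveClass P → CurveClass P → Prop
  | 0, a, b => a = b
  | n + 1, a, b => ∃ c, Pull F P a c ∧ PullN F P n c b

/-- `A` is a finite global attractor of the pullback relation. -/
def IsFGA (F : S2 → S2) (P : Set S2) (A : Set (CurveClass P)) : Prop :=
  A.Finite ∧ ∀ γ : CurveClass P, ∃ N : ℕ, ∀ n ≥ N, ∀ δ, PullN F P n γ δ → δ ∈ A

/-- The minimal finite global attractor (when there is one): the intersection of all of them. -/
def attractor (F : S2 → S2) (P : Set S2) : Set (CurveClass P) := ⋂₀ {A | IsFGA F P A}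

/-! ### Critical and postcritical points -/

/-- The critical points of `F`: the points at which `F` is not locally injective. -/
def crit (F : S2 → S2) : Set S2 := {x | ¬ ∃ U ∈ 𝓝 x, InjOn F U}

/-- The postcritical set `P_F = ⋃_{n ≥ 1} F^n (crit F)`. -/
def post (F : S2 → S2) : Set S2 := ⋃ n : ℕ, F^[n + 1] '' crit F

/-! ### Rational maps -/

/-- The point `a / b` of the Riemann sphere, `∞` if `b = 0`. -/
noncomputable def toSphere (a b : ℂ) : S2 :=
  open scoped Classical in if b = 0 then OnePoint.infty else ((a / b : ℂ) : S2)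

/-- The self-map `A / B` of the Riemann sphere, where `A, B` are polynomials of degree at
most `d`. -/
noncomputable def ratMap (d : ℕ) (A B : ℂ[X]) : S2 → S2
  | OnePoint.infty => toSphere (A.coeff d) (B.coeff d)
  | OnePoint.some z => toSphere (A.eval z) (B.eval z)

/-- `R` is a rational map of degree `d`. -/
def IsRational (d : ℕ) (R : S2 → S2) : Prop :=
  ∃ A B : ℂ[X], IsCoprime A B ∧ max A.natDegree B.natDegree = d ∧ R = ratMap d A B

/-- `F` is a rational Thurston map of degree `d`: there are a rational map `R` of degree `d` and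
homeomorphisms `h₀, h₁` of the sphere, isotopic relative to `P_F`, with `h₀ ∘ F = R ∘ h₁`. -/
def IsRationalThurston (d : ℕ) (F : S2 → S2) : Prop :=
  (post F).Finite ∧ ∃ (R : S2 → S2) (h₀ h₁ : S2 ≃ₜ S2), IsRational d R ∧
    (∀ x, h₀ (F x) = R (h₁ x)) ∧ IsotopicRel (post F) h₀ h₁

/-! ### Pairs (map, marked set) -/

/-- Equivalence of pairs consisting of a map and a marked set. -/
def IsoPair (F : S2 → S2) (P : Set S2) (G : S2 → S2) (Q : Set S2) : Prop :=
  ∃ h₀ h₁ : S2 ≃ₜ S2, (∀ x, h₀ (F x) = G (h₁ x)) ∧ IsotopicRel P h₀ h₁ ∧ h₀ '' P = Q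

/-- Marked rational maps. -/
def RatPair (d n : ℕ) (R : S2 → S2) (P : Set S2) : Prop :=
  IsRational d R ∧ P.Finite ∧ P.ncard = n ∧ MapsTo R P P ∧ MapsTo R (crit R) P

/-! ### Finitely many path components -/

/-- `S` is the union of finitely many path connected sets. -/
def FinPC {E : Type*} [TopologicalSpace E] (S : Set E) : Prop :=
  ∃ T : Set (Set E), T.Finite ∧ (∀ C ∈ T, IsPathConnected C) ∧ ⋃₀ T = S

/-! ### Parameters -/

/-- Indices of the coordinates of the parameter space. -/
inductive Idx (d n N : ℕ) : Type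
  /-- coefficients of the numerator -/
  | A (k : Fin (d + 1))
  /-- coefficients of the denominator -/
  | B (k : Fin (d + 1))
  /-- finite marked points -/
  | p (i : Fin n)
  /-- finite preimages of marked points -/
  | q (l : Fin N)
  /-- leading coefficients -/
  | a (i : Option (Fin n))
  /-- leading coefficient of the Wronskian -/
  | w
deriving Fintype

/-- Combinatorial data: `∞` is marked, there are `n` further marked points and `N` finite preimages
of marked points. `L l` is the image of the `l`-th preimage (`none` is `∞`), `e l` the local degree,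
`s i` the index of the marked point `i` among the preimages, `k` the image of `∞`. -/
structure Data (d n N : ℕ) where
  L : Fin N → Option (Fin n)
  e : Fin N → Fin (d + 1)
  s : Fin n → Fin N
  k : Option (Fin n)
deriving Fintype

variable {d n N : ℕ}

/-- The numerator. -/
noncomputable def polyA (x : Idx d n N → ℂ) : ℂ[X] :=
  ∑ k : Fin (d + 1), C (x (.A k)) * X ^ (k : ℕ)

/-- The denominator. -/
noncomputable def polyB (x : Idx d n N → ℂ) : ℂ[X] :=
  ∑ k : Fin (d + 1), C (x (.B k)) * X ^ (k : ℕ)

/-- The polynomial whose zeros are the preimages of the marked point `i`. -/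
noncomputable def polyT (x : Idx d n N → ℂ) : Option (Fin n) → ℂ[X]
  | none => polyB x
  | some i => polyA x - C (x (.p i)) * polyB x

/-- The rational map with parameter `x`. -/
noncomputable def pMap (x : Idx d n N → ℂ) : S2 → S2 := ratMap d (polyA x) (polyB x)

/-- The marked point `i`; `none` is `∞`. -/
noncomputable def pt (x : Idx d n N → ℂ) : Option (Fin n) → S2
  | none => OnePoint.infty
  | some i => ((x (.p i) : ℂ) : S2)

/-- The marked set. -/
def marked (x : Idx d n N → ℂ) : Set S2 := range (pt x)

/-- The finite preimages of marked points, and `∞` (`none`). -/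
noncomputable def qt (x : Idx d n N → ℂ) : Option (Fin N) → S2
  | none => OnePoint.infty
  | some l => ((x (.q l) : ℂ) : S2)

/-- The parameter space of the data `D`. -/
structure Good (D : Data d n N) (x : Idx d n N → ℂ) : Prop where
  fact : ∀ i : Option (Fin n), polyT x i =
    C (x (.a i)) * ∏ l ∈ Finset.univ.filter (fun l => D.L l = i), (X - C (x (.q l))) ^ (D.e l : ℕ)
  wron : derivative (polyA x) * polyB x - polyA x * derivative (polyB x) =
    C (x .w) * ∏ l, (X - C (x (.q l))) ^ ((D.e l : ℕ) - 1)
  mem : ∀ i, x (.p i) = x (.q (D.s i))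
  infk : (polyT x D.k).coeff d = 0
  a_ne : ∀ i, x (.a i) ≠ 0
  w_ne : x .w ≠ 0
  p_inj : ∀ i j, i ≠ j → x (.p i) ≠ x (.p j)
  q_inj : ∀ l m, l ≠ m → x (.q l) ≠ x (.q m)
  e_pos : ∀ l, 1 ≤ (D.e l : ℕ)
  lead : x (.A (Fin.last d)) ≠ 0 ∨ x (.B (Fin.last d)) ≠ 0

end Pool.Agent.helper65.GCA
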