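import Pool.Agent.helper65.GCA.T1a

set_option autoImplicit false

namespace Pool.Agent.helper65.GCA

open Set Topology unitInterval Polynomial

lemma mapsTo_post (F : S2 → S2) : MapsTo F (post F) (post F) := by
  intro x hx
  obtain ⟨n, c, hc, rfl⟩ := mem_iUnion.mp hx
  refine mem_iUnion.mpr ⟨n + 1, c, hc, ?_⟩
  rw [Function.iterate_succ_apply']

lemma map_crit_mem_post {F : S2 → S2} {c : S2} (hc : c ∈ crit F) : F c ∈ post F :=
  mem_iUnion.mpr ⟨0, c, hc, rfl⟩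

lemma mem_crit_of_conj {F G : S2 → S2} {h₀ h₁ : S2 ≃ₜ S2} (hFG : ∀ x, h₀ (F x) = G (h₁ x))
    {x : S2} (hx : h₁ x ∈ crit G) : x ∈ crit F := by
  rintro ⟨U, hU, hinj⟩
  apply hx
  refine ⟨h₁ '' U, h₁.isOpenMap.image_mem_nhds hU, ?_⟩
  rintro _ ⟨u, hu, rfl⟩ _ ⟨v, hv, rfl⟩ huv
  rw [← hFG, ← hFG] at huv
  rw [hinj hu hv (h₀.injective huv)]

/-- mod:T1f. A rational Thurston map gives a marked rational map. -/
theorem exists_ratPair {d n : ℕ} {F : S2 → S2} (h : IsRationalThurston d F)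
    (hn : (post F).ncard = n) : ∃ R P, RatPair d n R P ∧ IsoPair F (post F) R P := by
  obtain ⟨hfin, R, h₀, h₁, hR, hFR, hiso⟩ := h
  have heq := isotopicRel_image_eq hiso
  refine ⟨R, h₀ '' post F, ⟨hR, hfin.image _, ?_, ?_, ?_⟩, h₀, h₁, hFR, hiso, rfl⟩
  · rw [ncard_image_of_injective _ h₀.injective, hn]
  · rintro _ ⟨x, hx, rfl⟩
    rw [← heq x hx, ← hFR]
    exact mem_image_of_mem _ (mapsTo_post F hx)
  · intro y hy
    obtain ⟨x, rfl⟩ := h₁.surjective y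
    rw [← hFR]
    exact mem_image_of_mem _ (map_crit_mem_post (mem_crit_of_conj hFR hy))

end Pool.Agent.helper65.GCA
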