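import Pool.Agent.helper65.GCA.Defs

set_option autoImplicit false

namespace Pool.Agent.helper65.GCA

open Set Topology unitInterval Polynomial

/-- The inverse of a continuous family of homeomorphisms of a compact Hausdorff space is
continuous. -/
lemma continuous_symm_family {X : Type*} [TopologicalSpace X] [T2Space X] [CompactSpace X]
    (h : I → X ≃ₜ X) (hh : Continuous fun y : I × X => h y.1 y.2) :
    Continuous fun y : I × X => (h y.1).symm y.2 := by
  let e : (I × X) ≃ (I × X) :=
    { toFun := fun y => (y.1, h y.1 y.2)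
      invFun := fun y => (y.1, (h y.1).symm y.2)
      left_inv := fun y => by simp
      right_inv := fun y => by simp }
  have he : Continuous e := continuous_fst.prodMk hh
  have := (he.homeoOfEquivCompactToT2).symm.continuous
  exact continuous_snd.comp this

/-- mod:T7c. -/
theorem exists_isotopic {R : I → S2 → S2} {P : Set S2}
    (h : I → S2 ≃ₜ S2) (hh : Continuous fun y : I × S2 => h y.1 y.2)
    (h0 : h 0 = Homeomorph.refl S2)
    (K : I × S2 → S2) (hK : Continuous K) (hK0 : ∀ w, K (0, w) = w)
    (hKR : ∀ s w, R s (K (s, w)) = h s (R 0 w)) (hKP : ∀ s, ∀ x ∈ P, K (s, x) = h s x)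
    (hbij : ∀ s, Function.Bijective fun w => K (s, w)) :
    IsoPair (R 0) P (R 1) (h 1 '' P) := by
  have hKs : ∀ s, Continuous (Equiv.ofBijective (fun w => K (s, w)) (hbij s)) := fun s =>
    hK.comp (Continuous.prodMk_right s)
  let Kh : I → (S2 ≃ₜ S2) := fun s => (hKs s).homeoOfEquivCompactToT2
  have hKh : ∀ s w, Kh s w = K (s, w) := fun s w => rfl
  have hinv := continuous_symm_family h hh
  refine ⟨h 1, Kh 1, fun x => ?_, ⟨fun t => ((Kh t).trans (h t).symm).trans (h 1), ?_, ?_, ?_, ?_⟩, rfl⟩
  · rw [hKh, hKR]
  · have h1 : Continuous fun p : I × S2 => (h p.1).symm (Kh p.1 p.2) :=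
      hinv.comp (continuous_fst.prodMk hK)
    exact (h 1).continuous.comp h1
  · ext x
    simp only [Homeomorph.trans_apply, hKh, hK0, h0, Homeomorph.refl_symm, Homeomorph.refl_apply, id]
  · ext x
    simp only [Homeomorph.trans_apply, Homeomorph.apply_symm_apply]
  · intro t x hx
    simp only [Homeomorph.trans_apply, hKh, hKP t x hx, Homeomorph.symm_apply_apply]

end Pool.Agent.helper65.GCA
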