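import Pool.Agent.helper65.GCA.T5e
import Pool.Agent.helper65.GCA.T7c
import Pool.Agent.helper97.GCA_T1b
import Pool.Agent.helper97.GCA_T7a
import Pool.Agent.helper66.GCA_T2
import Pool.Agent.helper66.GCA_T5
import Pool.Agent.helper22.GCA_T3
import Pool.Agent.helper62.GCA_T6
import Pool.Agent.helper62.GCA_T7b

set_option autoImplicit false

namespace Pool.Agent.helper65.GCA

open Set Topology unitInterval Polynomial

variable {d n N : ℕ} {D : Data d n N}

lemma continuous_pt {T : Type*} [TopologicalSpace T] {x : T → Idx d n N → ℂ} (hx : Continuous x) :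
    Continuous fun t => pt (x t) := by
  refine continuous_pi fun i => ?_
  rcases i with _ | i
  · exact continuous_const
  · exact OnePoint.continuous_coe.comp ((continuous_apply _).comp hx)

lemma continuous_qt {T : Type*} [TopologicalSpace T] {x : T → Idx d n N → ℂ} (hx : Continuous x) :
    Continuous fun t => qt (x t) := by
  refine continuous_pi fun i => ?_
  rcases i with _ | i
  · exact continuous_const
  · exact OnePoint.continuous_coe.comp ((continuous_apply _).comp hx)

lemma Good.qt_injective {x : Idx d n N → ℂ} (h : Good D x) : Function.Injective (qt x) := by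
  intro l m hlm
  rcases l with _ | l <;> rcases m with _ | m
  · rfl
  · exact absurd hlm (by simp [qt])
  · exact absurd hlm (by simp [qt])
  · by_contra hne
    have h1 : l ≠ m := fun hh => hne (by rw [hh])
    exact h.q_inj l m h1 (by simpa [qt] using hlm)

/-- Short paths. -/
lemma isoPair_of_short {x : I → Idx d n N → ℂ} (hx : Continuous x) (hg : ∀ s, Good D (x s))
    (r : ℝ) (hr : 0 < r) (hsep : ∀ i j : Fin n, i ≠ j → 2 * r ≤ ‖x 0 (.p i) - x 0 (.p j)‖)
    (hmove : ∀ s (i : Fin n), ‖x s (.p i) - x 0 (.p i)‖ < r) :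
    IsoPair (pMap (x 0)) (marked (x 0)) (pMap (x 1)) (marked (x 1)) := by
  obtain ⟨h, hh, h0, hinf, hp⟩ := exists_push (fun s i => x s (.p i))
    (continuous_pi fun i => (continuous_apply _).comp hx) r hr hsep hmove
  have hpt : ∀ s i, h s (pt (x 0) i) = pt (x s) i := by
    intro s i
    rcases i with _ | i
    · exact hinf s
    · exact hp s i
  have hcont : Continuous fun y : I × S2 => pMap (x y.1) y.2 :=
    continuous_pMap x hx (fun t => (hg t).isCoprime) (fun t => (hg t).lead)
  have hcpt := continuous_pt (T := I) hx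
  have hcqt := continuous_qt (T := I) hx
  have hopen : IsOpen {y : I × S2 | y.2 ∉ range (pt (x y.1))} := by
    have : {y : I × S2 | y.2 ∉ range (pt (x y.1))} =
        ⋂ i : Option (Fin n), {y : I × S2 | y.2 = pt (x y.1) i}ᶜ := by
      ext y
      simp only [mem_ofPred_eq, mem_range, not_exists, mem_iInter, mem_compl_iff]
      exact forall_congr' fun i => ⟨fun hh he => hh he.symm, fun hh he => hh he.symm⟩
    rw [this]
    refine isOpen_iInter_of_finite fun i => ?_
    refine IsClosed.isOpen_compl (self := ?_)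
    exact isClosed_eq continuous_snd (((continuous_apply i).comp hcpt).comp continuous_fst)
  have hfib : ∀ s z, (fun y : I × S2 => (y.1, pMap (x y.1) y.2)) ⁻¹' {(s, z)} =
      (fun w => (s, w)) '' (pMap (x s) ⁻¹' {z}) := by
    intro s z
    ext ⟨s', w⟩
    simp only [mem_preimage, mem_singleton_iff, Prod.mk.injEq, mem_image]
    constructor
    · rintro ⟨rfl, hw⟩
      exact ⟨w, hw, rfl, rfl⟩
    · rintro ⟨w', hw', rfl, rfl⟩
      exact ⟨rfl, hw'⟩
  have hinj' : ∀ s : I, Function.Injective (fun w : S2 => (s, w)) := fun s w w' hww =>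
    (Prod.mk.inj hww).2
  have hcov : IsCoveringMapOn (fun y : I × S2 => (y.1, pMap (x y.1) y.2))
      {y | y.2 ∉ range (pt (x y.1))} := by
    refine isCoveringMapOn_of_card (continuous_fst.prodMk hcont) hopen d ?_ ?_ ?_
    · rintro ⟨s, z⟩ hz
      rw [hfib]
      exact ((hg s).fiber hz).1.image _
    · rintro ⟨s, z⟩ hz
      rw [hfib, ncard_image_of_injective _ (hinj' s)]
      exact ((hg s).fiber hz).2
    · rintro ⟨s, w⟩ hw
      refine Good.exists_injOn hx hg s w ?_
      intro hw'
      obtain ⟨l, rfl⟩ := hw'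
      apply hw
      exact ⟨l.elim D.k D.L, ((hg s).pMap_qt l).symm⟩
  obtain ⟨K, hK, hK0, hKR, hKq, hbij⟩ := exists_lift (fun s => pMap (x s)) hcont
    (fun s => pt (x s)) hcpt (fun s => qt (x s)) hcqt (fun s => (hg s).qt_injective)
    (fun l => l.elim D.k D.L) (fun s l => (hg s).pMap_qt l) (fun s y hy => (hg s).mem_range_qt hy)
    hcov h hh h0 hpt
  have hKc := continuous_of_lift (fun s => pMap (x s)) hcont
    (fun s => pt (x s)) hcpt (fun s => qt (x s)) hcqt (fun s => (hg s).qt_injective)
    (fun l => l.elim D.k D.L) (fun s l => (hg s).pMap_qt l) (fun s y hy => (hg s).mem_range_qt hy)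
    h hh h0 hpt K hK hK0 hKR hKq
  have hKP : ∀ s, ∀ y ∈ marked (x 0), K (s, y) = h s y := by
    rintro s _ ⟨i, rfl⟩
    rw [hpt]
    rcases i with _ | i
    · exact hKq s none
    · have e0 : pt (x 0) (some i) = qt (x 0) (some (D.s i)) := by
        simp only [pt, qt, (hg 0).mem i]
      have e1 : pt (x s) (some i) = qt (x s) (some (D.s i)) := by
        simp only [pt, qt, (hg s).mem i]
      rw [e0, e1]
      exact hKq s _
  have := exists_isotopic (R := fun s => pMap (x s)) (P := marked (x 0)) h hh h0 K hKc hK0 hKR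
    hKP hbij
  have him : h 1 '' marked (x 0) = marked (x 1) := by
    unfold marked
    rw [← range_comp]
    congr 1
    funext i
    exact hpt 1 i
  rwa [him] at this

lemma IsoPair.refl (F : S2 → S2) (P : Set S2) : IsoPair F P F P :=
  ⟨Homeomorph.refl S2, Homeomorph.refl S2, fun _ => rfl, IsotopicRel.refl _ _, by simp⟩

/-- The affine reparametrisation of the unit interval onto `[s, t]`. -/
noncomputable def seg (s t u : I) : I :=
  ⟨(1 - u) * s + u * t, by
    constructor
    · have := s.2.1; have := t.2.1; have := u.2.1; have := u.2.2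
      nlinarith [mul_nonneg (sub_nonneg.mpr u.2.2) s.2.1, mul_nonneg u.2.1 t.2.1]
    · have := s.2.2; have := t.2.2; have := u.2.1; have := u.2.2
      nlinarith [mul_nonneg (sub_nonneg.mpr u.2.2) (sub_nonneg.mpr s.2.2),
        mul_nonneg u.2.1 (sub_nonneg.mpr t.2.2)]⟩

lemma continuous_seg (s t : I) : Continuous (seg s t) := by
  unfold seg
  fun_prop

lemma dist_seg (s t u : I) : dist (seg s t u) s ≤ dist t s := by
  rw [Subtype.dist_eq, Subtype.dist_eq, Real.dist_eq, Real.dist_eq]
  have : ((seg s t u : I) : ℝ) - s = u * ((t : ℝ) - s) := by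
    simp only [seg]
    ring
  rw [this, abs_mul, abs_of_nonneg u.2.1]
  exact mul_le_of_le_one_left (abs_nonneg _) u.2.2

/-- mod:T8. -/
theorem isoPair_of_joinedIn {x y : Idx d n N → ℂ} (h : JoinedIn {x | Good D x} x y) :
    IsoPair (pMap x) (marked x) (pMap y) (marked y) := by
  obtain ⟨γ, hγ⟩ := h
  have hγ' : ∀ t, Good D (γ t) := hγ
  have hp : ∀ i : Fin n, Continuous fun t => γ t (.p i) := fun i =>
    (continuous_apply _).comp γ.continuous
  -- a uniform lower bound for the distances of the marked points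
  obtain ⟨r, hr, hsep⟩ : ∃ r : ℝ, 0 < r ∧ ∀ t, ∀ i j : Fin n, i ≠ j →
      2 * r ≤ ‖γ t (.p i) - γ t (.p j)‖ := by
    have h1 : ∀ ij : Fin n × Fin n, ∃ r : ℝ, 0 < r ∧ ∀ t, ij.1 ≠ ij.2 →
        2 * r ≤ ‖γ t (.p ij.1) - γ t (.p ij.2)‖ := by
      rintro ⟨i, j⟩
      by_cases hij : i = j
      · exact ⟨1, one_pos, fun t hne => absurd hij hne⟩
      · obtain ⟨t₀, -, ht₀⟩ := isCompact_univ.exists_isMinOn (s := (univ : Set I))
          ⟨0, mem_univ _⟩ (f := fun t => ‖γ t (.p i) - γ t (.p j)‖)
          ((hp i).sub (hp j)).norm.continuousOn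
        refine ⟨‖γ t₀ (.p i) - γ t₀ (.p j)‖ / 2, ?_, fun t _ => ?_⟩
        · have := norm_pos_iff.mpr (sub_ne_zero.mpr ((hγ' t₀).p_inj i j hij))
          positivity
        · have := ht₀ (mem_univ t)
          simp only [mem_ofPred_eq] at this
          linarith
    choose ρ hρ0 hρ using h1
    rcases isEmpty_or_nonempty (Fin n × Fin n) with hemp | hne
    · exact ⟨1, one_pos, fun t i j _ => (hemp.false (i, j)).elim⟩
    · obtain ⟨ij, hij⟩ := Finite.exists_min ρ
      refine ⟨ρ ij, hρ0 ij, fun t i j hne => ?_⟩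
      have := hρ (i, j) t hne
      have := hij (i, j)
      linarith
  -- uniform continuity
  obtain ⟨δ, hδ, hδ'⟩ : ∃ δ : ℝ, 0 < δ ∧ ∀ s t : I, dist s t < δ → ∀ i : Fin n,
      ‖γ s (.p i) - γ t (.p i)‖ < r := by
    have huc : UniformContinuous fun t (i : Fin n) => γ t (.p i) :=
      CompactSpace.uniformContinuous_of_continuous (continuous_pi hp)
    obtain ⟨δ, hδ, hδ'⟩ := Metric.uniformContinuous_iff.mp huc r hr
    refine ⟨δ, hδ, fun s t hst i => ?_⟩
    have := hδ' hst
    rw [← dist_eq_norm]
    exact (dist_pi_lt_iff hr).mp this i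
  -- close parameters are equivalent
  have hclose : ∀ s t : I, dist t s < δ → IsoPair (pMap (γ s)) (marked (γ s)) (pMap (γ t))
      (marked (γ t)) := by
    intro s t hst
    have h0 : seg s t 0 = s := by
      apply Subtype.ext
      simp [seg]
    have h1 : seg s t 1 = t := by
      apply Subtype.ext
      simp [seg]
    have := isoPair_of_short (D := D) (x := fun u => γ (seg s t u))
      (γ.continuous.comp (continuous_seg s t)) (fun u => hγ' _) r hr
      (fun i j hij => hsep _ i j hij)
      (fun u i => by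
        refine hδ' _ _ ?_ i
        rw [h0]
        exact (dist_seg s t u).trans_lt hst)
    simpa only [h0, h1] using this
  -- subdivision
  obtain ⟨M, hM⟩ := exists_nat_gt (1 / δ)
  have hMpos : (0 : ℝ) < M := lt_trans (by positivity) hM
  have hstep : ∀ k : ℕ, (hk : k ≤ M) → IsoPair (pMap (γ 0)) (marked (γ 0))
      (pMap (γ ⟨(k : ℝ) / M, by positivity, by
        rw [div_le_one hMpos]; exact_mod_cast hk⟩))
      (marked (γ ⟨(k : ℝ) / M, by positivity, by
        rw [div_le_one hMpos]; exact_mod_cast hk⟩)) := by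
    intro k
    induction k with
    | zero =>
      intro hk
      have : (⟨((0 : ℕ) : ℝ) / M, by positivity, by
        rw [div_le_one hMpos]; exact_mod_cast hk⟩ : I) = 0 := by
        apply Subtype.ext
        simp
      simp only [this]
      exact IsoPair.refl _ _
    | succ k ih =>
      intro hk
      refine (ih (by omega)).trans (hclose _ _ ?_)
      rw [Subtype.dist_eq, Real.dist_eq]
      have : ((k + 1 : ℕ) : ℝ) / M - (k : ℝ) / M = 1 / M := by
        push_cast
        field_simp
        ring
      simp only [this]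
      rw [abs_of_nonneg (by positivity), div_lt_iff₀ hMpos]
      rw [div_lt_iff₀ hδ] at hM
      linarith
  have hfin := hstep M le_rfl
  have hone : (⟨(M : ℝ) / M, by positivity, by
        rw [div_le_one hMpos]⟩ : I) = 1 := by
    apply Subtype.ext
    simp only [Icc.coe_one]
    field_simp
  simp only [hone] at hfin
  simpa using hfin

end Pool.Agent.helper65.GCA
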