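import Pool.Agent.helper65.GCA.T1a
import Pool.Agent.helper65.GCA.T1f
import Pool.Agent.helper65.GCA.T8
import Pool.Agent.helper22.GCA_T4
import Pool.Agent.helper22.GCA_A11
import Pool.Agent.helper91.GCA_A12b
import Pool.Agent.helper65.GCA.A10d

set_option autoImplicit false

namespace Pool.Agent.helper65.GCA

open Set Topology unitInterval Polynomial

lemma IsoPair.ncard_eq {F G : S2 → S2} {P Q : Set S2} (h : IsoPair F P G Q) :
    (attractor F P).ncard = (attractor G Q).ncard := by
  obtain ⟨Φ, hΦ⟩ := exists_classEquiv h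
  exact attractor_ncard_eq Φ hΦ

lemma finPC_good {d n N : ℕ} (D : Data d n N) : FinPC {x | Good D x} :=
  finPC_good_of (fun S g => finPC_constructible S g) D

lemma bounded_data {d n N : ℕ} (D : Data d n N) :
    ∃ b : ℕ, ∀ x, Good D x → (attractor (pMap x) (marked x)).ncard ≤ b := by
  obtain ⟨T, hT, hC, hU⟩ := finPC_good D
  have hne : ∀ C : T, (C : Set (Idx d n N → ℂ)).Nonempty := fun C => (hC C C.2).nonempty
  choose y hy using hne
  have : Fintype T := hT.fintype
  refine ⟨∑ C : T, (attractor (pMap (y C)) (marked (y C))).ncard, fun x hx => ?_⟩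
  have hx' : x ∈ ⋃₀ T := by rw [hU]; exact hx
  obtain ⟨C, hCT, hxC⟩ := hx'
  have hj : JoinedIn {x | Good D x} x (y ⟨C, hCT⟩) :=
    ((hC C hCT).joinedIn x hxC _ (hy ⟨C, hCT⟩)).mono (by
      intro z hz
      rw [← hU]
      exact ⟨C, hCT, hz⟩)
  rw [(isoPair_of_joinedIn hj).ncard_eq]
  exact Finset.single_le_sum (f := fun C : T => (attractor (pMap (y C)) (marked (y C))).ncard)
    (fun _ _ => Nat.zero_le _) (Finset.mem_univ _)

lemma bounded_all (d n : ℕ) :
    ∃ b : ℕ, ∀ N ≤ (n + 1) * d, ∀ (D : Data d n N) (x : Idx d n N → ℂ), Good D x →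
      (attractor (pMap x) (marked x)).ncard ≤ b := by
  choose b hb using fun (N : ℕ) (D : Data d n N) => bounded_data D
  refine ⟨∑ N ∈ Finset.range ((n + 1) * d + 1), ∑ D, b N D, fun N hN D x hx => ?_⟩
  refine (hb N D x hx).trans ?_
  refine (Finset.single_le_sum (f := fun D => b N D) (fun _ _ => Nat.zero_le _)
    (Finset.mem_univ D)).trans ?_
  exact Finset.single_le_sum (f := fun N => ∑ D, b N D) (fun _ _ => Nat.zero_le _)
    (Finset.mem_range.mpr (Nat.lt_succ_of_le hN))

theorem exists_bound (n d : ℕ) (hd : 2 ≤ d) :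
    ∃ b : ℕ, ∀ F : S2 → S2, IsRationalThurston d F → (post F).ncard = n →
      (attractor F (post F)).ncard ≤ b := by
  rcases n with _ | n
  · refine ⟨2, fun F hF hn => ?_⟩
    have h0 : post F = ∅ := by
      rwa [Set.ncard_eq_zero hF.1] at hn
    rw [h0]
    exact attractor_ncard_empty F
  · obtain ⟨b, hb⟩ := bounded_all d n
    refine ⟨b, fun F hF hn => ?_⟩
    obtain ⟨R, P, hRP, hiso⟩ := exists_ratPair hF hn
    have hPne : P.Nonempty := by
      rw [← Set.ncard_pos hRP.2.1, hRP.2.2.1]
      omega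
    obtain ⟨R', P', hRP', hinf, hiso'⟩ := exists_infty_mem hRP hPne
    obtain ⟨N, hN, D, x, hx, hxR, hxP⟩ := exists_good (by omega) hRP' hinf
    have := hb N hN D x hx
    rwa [hxR, hxP, ← hiso'.ncard_eq, ← hiso.ncard_eq] at this

/-- There is a function `B` such that for every rational Thurston map `F` of degree `d ≥ 2` whose
pullback relation on curves has a finite global attractor, the minimal finite global attractor has
at most `B |P_F| d` elements. -/
theorem main : ∃ B : ℕ → ℕ → ℕ, ∀ (d : ℕ) (F : S2 → S2), 2 ≤ d → IsRationalThurston d F →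
    (∃ A, IsFGA F (post F) A) →
      IsFGA F (post F) (attractor F (post F)) ∧
        (attractor F (post F)).ncard ≤ B (post F).ncard d := by
  have h : ∀ n d : ℕ, ∃ b : ℕ, 2 ≤ d → ∀ F : S2 → S2, IsRationalThurston d F →
      (post F).ncard = n → (attractor F (post F)).ncard ≤ b := by
    intro n d
    by_cases hd : 2 ≤ d
    · obtain ⟨b, hb⟩ := exists_bound n d hd
      exact ⟨b, fun _ => hb⟩
    · exact ⟨0, fun hd' => absurd hd' hd⟩
  choose B hB using h
  exact ⟨B, fun d F hd hF hA => ⟨isFGA_attractor hA, hB _ d hd F hF rfl⟩⟩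

end Pool.Agent.helper65.GCA
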