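import Pool.Agent.helper65.GCA.Defs

set_option autoImplicit false

namespace Pool.Agent.helper65.GCA

open Set Topology unitInterval Polynomial

lemma isSimpleClosedCurve_image {J : Set S2} (h : S2 ≃ₜ S2) (hJ : IsSimpleClosedCurve J) :
    IsSimpleClosedCurve (h '' J) := by
  obtain ⟨γ, hγ, hi, rfl⟩ := hJ
  exact ⟨h ∘ γ, h.continuous.comp hγ, h.injective.comp hi, range_comp _ _⟩

lemma isEssential_image {P J : Set S2} (h : S2 ≃ₜ S2) (hJ : IsEssential P J) :
    IsEssential (h '' P) (h '' J) := by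
  intro y hy
  obtain ⟨x, rfl⟩ := h.surjective y
  have hx : x ∉ J := fun hx => hy (mem_image_of_mem _ hx)
  have h1 : (h '' J)ᶜ = h '' Jᶜ := (image_compl_eq h.bijective).symm
  rw [h1, ← h.image_connectedComponentIn (show x ∈ Jᶜ from hx), ← image_inter h.injective,
    h.injective.injOn.encard_image]
  exact hJ x hx

lemma isEssential_image_iff {P J : Set S2} (h : S2 ≃ₜ S2) :
    IsEssential (h '' P) (h '' J) ↔ IsEssential P J := by
  refine ⟨fun hh => ?_, isEssential_image h⟩
  have := isEssential_image h.symm hh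
  simpa [image_image] using this

/-- The image of an essential curve under a homeomorphism. -/
def ECurve.map {P Q : Set S2} (h : S2 ≃ₜ S2) (hPQ : h '' P = Q) (J : ECurve P) : ECurve Q where
  carrier := h '' J.carrier
  simple := isSimpleClosedCurve_image h J.simple
  disj := by
    rw [← hPQ, disjoint_image_iff h.injective]
    exact J.disj
  ess := by
    rw [← hPQ]
    exact isEssential_image h J.ess

lemma isotopicIn_image {P Q J K : Set S2} (h : S2 ≃ₜ S2) (hPQ : h '' P = Q)
    (hJK : IsotopicIn P J K) : IsotopicIn Q (h '' J) (h '' K) := by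
  obtain ⟨g, ⟨H, hH, h0, h1, hP⟩, rfl⟩ := hJK
  refine ⟨(h.symm.trans g).trans h, ⟨fun t => (h.symm.trans (H t)).trans h, ?_, ?_, ?_, ?_⟩, ?_⟩
  · exact h.continuous.comp (hH.comp (continuous_fst.prodMk (h.symm.continuous.comp
      continuous_snd)))
  · ext x
    simp [h0]
  · ext x
    simp [h1]
  · intro t y hy
    rw [← hPQ] at hy
    obtain ⟨x, hx, rfl⟩ := hy
    simp only [Homeomorph.trans_apply, Homeomorph.symm_apply_apply, Homeomorph.refl_apply]
    have := hP t x hx
    rw [this]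
    rfl
  · simp only [image_image, Homeomorph.trans_apply, Homeomorph.symm_apply_apply]

/-- The map on curve classes induced by a homeomorphism. -/
def classMap {P Q : Set S2} (h : S2 ≃ₜ S2) (hPQ : h '' P = Q) : CurveClass P → CurveClass Q :=
  Option.map (Quotient.map (ECurve.map h hPQ) (fun _ _ hJK => isotopicIn_image h hPQ hJK))

lemma ECurve.ext' {P : Set S2} {J K : ECurve P} (h : J.carrier = K.carrier) : J = K := by
  cases J
  cases K
  cases h
  rfl

lemma classMap_classMap {P Q : Set S2} (h : S2 ≃ₜ S2) (hPQ : h '' P = Q)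
    (hQP : h.symm '' Q = P) (a : CurveClass P) : classMap h.symm hQP (classMap h hPQ a) = a := by
  rcases a with _ | a
  · rfl
  · induction a using Quotient.inductionOn with
    | h J =>
      have : ECurve.map h.symm hQP (ECurve.map h hPQ J) = J := by
        apply ECurve.ext'
        simp only [ECurve.map, image_image, Homeomorph.symm_apply_apply, image_id']
      simp only [classMap, Option.map_some, Quotient.map_mk, this]

/-- The bijection of curve classes induced by a homeomorphism. -/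
noncomputable def classEquiv {P Q : Set S2} (h : S2 ≃ₜ S2) (hPQ : h '' P = Q) : CurveClass P ≃ CurveClass Q where
  toFun := classMap h hPQ
  invFun := classMap h.symm (by rw [← hPQ]; simp [image_image])
  left_inv := fun a => classMap_classMap h hPQ _ a
  right_inv := fun a => classMap_classMap h.symm _ (by simpa using hPQ) a

lemma isotopicRel_image_eq {P : Set S2} {h k : S2 ≃ₜ S2} (H : IsotopicRel P h k) :
    ∀ x ∈ P, k x = h x := by
  obtain ⟨H, hH, h0, h1, hP⟩ := H
  intro x hx
  rw [← h1]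
  exact hP 1 x hx

lemma IsoPair.symm {F G : S2 → S2} {P Q : Set S2} {h₀ h₁ : S2 ≃ₜ S2}
    (hFG : ∀ x, h₀ (F x) = G (h₁ x)) (hiso : IsotopicRel P h₀ h₁) (hPQ : h₀ '' P = Q) :
    (∀ x, h₀.symm (G x) = F (h₁.symm x)) ∧ IsotopicRel Q h₀.symm h₁.symm ∧ h₀.symm '' Q = P := by
  refine ⟨fun x => ?_, ?_, by rw [← hPQ]; simp [image_image]⟩
  · rw [Homeomorph.symm_apply_eq, hFG, Homeomorph.apply_symm_apply]
  · have heq := isotopicRel_image_eq hiso
    obtain ⟨H, hH, h0, h1, hP⟩ := hiso
    refine ⟨fun t => (h₁.symm.trans (H (σ t))).trans h₀.symm, ?_, ?_, ?_, ?_⟩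
    · exact h₀.symm.continuous.comp (hH.comp ((continuous_symm.comp continuous_fst).prodMk
        (h₁.symm.continuous.comp continuous_snd)))
    · ext x
      simp [h1]
    · ext x
      simp [h0]
    · intro t y hy
      rw [← hPQ] at hy
      obtain ⟨x, hx, rfl⟩ := hy
      have h2 : h₁.symm (h₀ x) = x := by rw [Homeomorph.symm_apply_eq, heq x hx]
      simp only [Homeomorph.trans_apply, h2, Homeomorph.symm_apply_apply]
      rw [hP _ x hx, Homeomorph.symm_apply_apply]

lemma preimage_image_conj {F G : S2 → S2} {h₀ h₁ : S2 ≃ₜ S2} (hFG : ∀ x, h₀ (F x) = G (h₁ x))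
    (J : Set S2) : G ⁻¹' (h₀ '' J) = h₁ '' (F ⁻¹' J) := by
  ext y
  obtain ⟨x, rfl⟩ := h₁.surjective y
  rw [mem_preimage, ← hFG, h₀.injective.mem_set_image, h₁.injective.mem_set_image, mem_preimage]

lemma isPullback_image {F G : S2 → S2} {h₀ h₁ : S2 ≃ₜ S2} (hFG : ∀ x, h₀ (F x) = G (h₁ x))
    {J K : Set S2} (hK : IsPullback F J K) : IsPullback G (h₀ '' J) (h₁ '' K) := by
  obtain ⟨x, hx, rfl⟩ := hK
  refine ⟨h₁ x, ?_, ?_⟩
  · rw [preimage_image_conj hFG]
    exact mem_image_of_mem _ hx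
  · rw [preimage_image_conj hFG]
    exact h₁.image_connectedComponentIn hx

/-- `h₁ K` and `h₀ K` are isotopic. -/
lemma isotopicIn_of_isotopicRel {P Q : Set S2} {h₀ h₁ : S2 ≃ₜ S2} (hiso : IsotopicRel P h₀ h₁)
    (hPQ : h₀ '' P = Q) (K : Set S2) : IsotopicIn Q (h₁ '' K) (h₀ '' K) := by
  have heq := isotopicRel_image_eq hiso
  obtain ⟨H, hH, h0, h1, hP⟩ := hiso
  refine ⟨h₁.symm.trans h₀, ⟨fun t => h₁.symm.trans (H (σ t)), ?_, ?_, ?_, ?_⟩, ?_⟩
  · exact hH.comp ((continuous_symm.comp continuous_fst).prodMk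
      (h₁.symm.continuous.comp continuous_snd))
  · ext x
    simp [h1]
  · ext x
    simp [h0]
  · intro t y hy
    rw [← hPQ] at hy
    obtain ⟨x, hx, rfl⟩ := hy
    have h2 : h₁.symm (h₀ x) = x := by rw [Homeomorph.symm_apply_eq, heq x hx]
    simp only [Homeomorph.trans_apply, h2]
    exact hP _ x hx
  · simp only [image_image, Homeomorph.trans_apply, Homeomorph.symm_apply_apply]

/-- One direction of the transport of the pullback relation. -/
lemma pull_classMap {F G : S2 → S2} {P Q : Set S2} {h₀ h₁ : S2 ≃ₜ S2}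
    (hFG : ∀ x, h₀ (F x) = G (h₁ x)) (hiso : IsotopicRel P h₀ h₁) (hPQ : h₀ '' P = Q)
    {a b : CurveClass P} (hab : Pull F P a b) :
    Pull G Q (classMap h₀ hPQ a) (classMap h₀ hPQ b) := by
  have heq := isotopicRel_image_eq hiso
  have hPQ1 : h₁ '' P = Q := by
    rw [← hPQ]
    exact image_congr heq
  rcases a with _ | a <;> rcases b with _ | b
  · trivial
  · exact hab.elim
  · obtain ⟨J, K, hJ, hK, hKs, hKd, hKe⟩ := hab
    refine ⟨ECurve.map h₀ hPQ J, h₁ '' K, ?_, isPullback_image hFG hK,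
      isSimpleClosedCurve_image _ hKs, ?_, ?_⟩
    · rw [← hJ]
      rfl
    · rw [← hPQ1, disjoint_image_iff h₁.injective]
      exact hKd
    · rw [← hPQ1, isEssential_image_iff]
      exact hKe
  · obtain ⟨J, K, hJ, hK, hJK⟩ := hab
    refine ⟨ECurve.map h₀ hPQ J, ECurve.map h₁ hPQ1 K, ?_, ?_, isPullback_image hFG hJK⟩
    · rw [← hJ]
      rfl
    · rw [← hK]
      exact Quotient.sound (isotopicIn_of_isotopicRel hiso hPQ _)

/-- mod:T1a. -/
theorem exists_classEquiv {F G : S2 → S2} {P Q : Set S2} (h : IsoPair F P G Q) :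
    ∃ Φ : CurveClass P ≃ CurveClass Q, ∀ a b, Pull F P a b ↔ Pull G Q (Φ a) (Φ b) := by
  obtain ⟨h₀, h₁, hFG, hiso, hPQ⟩ := h
  refine ⟨classEquiv h₀ hPQ, fun a b => ⟨fun hab => pull_classMap hFG hiso hPQ hab, fun hab => ?_⟩⟩
  obtain ⟨hFG', hiso', hQP⟩ := IsoPair.symm hFG hiso hPQ
  have := pull_classMap hFG' hiso' hQP hab
  have h2 : ∀ a, classMap h₀.symm hQP (classEquiv h₀ hPQ a) = a :=
    classMap_classMap h₀ hPQ hQP
  rwa [h2, h2] at this

end Pool.Agent.helper65.GCA
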