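import Pool.Agent.helper65.GCA.Defs

set_option autoImplicit false

namespace Pool.Agent.helper65.GCA

open Set Topology unitInterval Polynomial

variable {d n N : ℕ} {D : Data d n N}

lemma toSphere_eq {a b c e : ℂ} (h : toSphere a b = toSphere c e) : a * e = c * b := by
  unfold toSphere at h
  split_ifs at h with hb he he
  · rw [hb, he]; ring
  · exact absurd h (by simp)
  · exact absurd h (by simp)
  · have : a / b = c / e := by simpa using h
    field_simp at this
    rw [this]; ring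

/-- The divided difference of `∑ c_k X^k`. -/
noncomputable def dd (c : Fin (d + 1) → ℂ) (u v : ℂ) : ℂ :=
  ∑ k : Fin (d + 1), c k * ∑ j ∈ Finset.range (k : ℕ), u ^ j * v ^ ((k : ℕ) - 1 - j)

lemma dd_mul (c : Fin (d + 1) → ℂ) (u v : ℂ) :
    dd c u v * (u - v) = (∑ k : Fin (d + 1), c k * u ^ (k : ℕ)) - ∑ k : Fin (d + 1), c k * v ^ (k : ℕ) := by
  unfold dd
  rw [Finset.sum_mul, ← Finset.sum_sub_distrib]
  refine Finset.sum_congr rfl fun k _ => ?_
  rw [mul_assoc, (Commute.all u v).geom_sum₂_mul]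
  ring

lemma dd_self (c : Fin (d + 1) → ℂ) (u : ℂ) :
    dd c u u = ∑ k : Fin (d + 1), c k * ((k : ℕ) * u ^ ((k : ℕ) - 1)) := by
  unfold dd
  refine Finset.sum_congr rfl fun k _ => ?_
  congr 1
  have : ∀ j ∈ Finset.range (k : ℕ), u ^ j * u ^ ((k : ℕ) - 1 - j) = u ^ ((k : ℕ) - 1) := by
    intro j hj
    rw [← pow_add]
    congr 1
    have := Finset.mem_range.mp hj
    omega
  rw [Finset.sum_congr rfl this]
  simp

lemma eval_poly (c : Fin (d + 1) → ℂ) (u : ℂ) :
    (∑ k : Fin (d + 1), C (c k) * X ^ (k : ℕ) : ℂ[X]).eval u =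
      ∑ k : Fin (d + 1), c k * u ^ (k : ℕ) := by
  simp [eval_finsetSum]

lemma eval_deriv_poly (c : Fin (d + 1) → ℂ) (u : ℂ) :
    (derivative (∑ k : Fin (d + 1), C (c k) * X ^ (k : ℕ) : ℂ[X])).eval u = dd c u u := by
  rw [dd_self, derivative_sum, eval_finsetSum]
  refine Finset.sum_congr rfl fun k _ => ?_
  rw [derivative_C_mul, derivative_X_pow]
  simp

lemma continuous_dd {T : Type*} [TopologicalSpace T] {c : T → Fin (d + 1) → ℂ}
    (hc : Continuous c) : Continuous fun y : T × ℂ × ℂ => dd (c y.1) y.2.1 y.2.2 := by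
  unfold dd
  fun_prop

/-- mod:T5e. -/
theorem Good.exists_injOn {T : Type*} [TopologicalSpace T] {x : T → Idx d n N → ℂ}
    (hx : Continuous x) (hg : ∀ t, Good D (x t)) (t : T) (w : S2) (hw : w ∉ range (qt (x t))) :
    ∃ U ∈ 𝓝 (t, w), InjOn (fun y : T × S2 => (y.1, pMap (x y.1) y.2)) U := by
  -- `w` is finite
  induction w using OnePoint.rec with
  | infty => exact absurd ⟨none, rfl⟩ hw
  | coe w =>
    let cA : T → Fin (d + 1) → ℂ := fun t k => x t (.A k)
    let cB : T → Fin (d + 1) → ℂ := fun t k => x t (.B k)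
    have hcA : Continuous cA := continuous_pi fun k => (continuous_apply _).comp hx
    have hcB : Continuous cB := continuous_pi fun k => (continuous_apply _).comp hx
    let Δ : T × ℂ × ℂ → ℂ := fun y =>
      dd (cA y.1) y.2.1 y.2.2 * (∑ k : Fin (d + 1), cB y.1 k * y.2.2 ^ (k : ℕ)) -
        (∑ k : Fin (d + 1), cA y.1 k * y.2.2 ^ (k : ℕ)) * dd (cB y.1) y.2.1 y.2.2
    have hΔ : Continuous Δ := by
      have h1 := continuous_dd hcA
      have h2 := continuous_dd hcB
      have h3 : Continuous fun y : T × ℂ × ℂ => ∑ k : Fin (d + 1), cB y.1 k * y.2.2 ^ (k : ℕ) := by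
        fun_prop
      have h4 : Continuous fun y : T × ℂ × ℂ => ∑ k : Fin (d + 1), cA y.1 k * y.2.2 ^ (k : ℕ) := by
        fun_prop
      exact (h1.mul h3).sub (h4.mul h2)
    have hne : Δ (t, w, w) ≠ 0 := by
      have h1 := congrArg (eval w) (hg t).wron
      have h2 : eval w (derivative (polyA (x t)) * polyB (x t) -
          polyA (x t) * derivative (polyB (x t))) = Δ (t, w, w) := by
        simp only [eval_sub, eval_mul, polyA, polyB, eval_poly (fun k => x t (.A k)),
          eval_poly (fun k => x t (.B k)), eval_deriv_poly (fun k => x t (.A k)),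
          eval_deriv_poly (fun k => x t (.B k))]
        rfl
      rw [← h2, h1, eval_mul, eval_prod]
      refine mul_ne_zero (by simpa using (hg t).w_ne) (Finset.prod_ne_zero_iff.mpr fun l _ => ?_)
      simp only [eval_pow, eval_sub, eval_X, eval_C]
      refine pow_ne_zero _ (sub_ne_zero.mpr fun h => hw ⟨some l, ?_⟩)
      simp only [qt, h]
    have hev : ∀ᶠ y in 𝓝 (t, w, w), Δ y ≠ 0 := hΔ.continuousAt.eventually_ne hne
    rw [nhds_prod_eq, nhds_prod_eq, Filter.eventually_prod_iff] at hev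
    obtain ⟨pa, hpa, pb, hpb, hab⟩ := hev
    rw [Filter.eventually_prod_iff] at hpb
    obtain ⟨pc, hpc, pe, hpe, hce⟩ := hpb
    refine ⟨{s | pa s} ×ˢ ((↑) '' ({u | pc u} ∩ {u | pe u})), ?_, ?_⟩
    · refine prod_mem_nhds hpa ?_
      rw [OnePoint.nhds_coe_eq]
      exact Filter.image_mem_map (Filter.inter_mem hpc hpe)
    · rintro ⟨s, _⟩ ⟨hs, u, ⟨hu1, hu2⟩, rfl⟩ ⟨s', _⟩ ⟨hs', v, ⟨hv1, hv2⟩, rfl⟩ huv
      simp only [Prod.mk.injEq] at huv
      obtain ⟨rfl, huv⟩ := huv
      have h1 : Δ (s, u, v) ≠ 0 := hab hs (hce hu1 hv2)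
      have h2 := toSphere_eq huv
      have h3 : Δ (s, u, v) * (u - v) = 0 := by
        simp only [polyA, polyB, eval_poly (fun k => x s (.A k)),
          eval_poly (fun k => x s (.B k))] at h2
        have e1 := dd_mul (cA s) u v
        have e2 := dd_mul (cB s) u v
        simp only [Δ]
        linear_combination (∑ k : Fin (d + 1), cB s k * v ^ (k : ℕ)) * e1 -
          (∑ k : Fin (d + 1), cA s k * v ^ (k : ℕ)) * e2 + h2
      rcases mul_eq_zero.mp h3 with h4 | h4
      · exact absurd h4 h1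
      · rw [sub_eq_zero.mp h4]

end Pool.Agent.helper65.GCA
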